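import Pool.Agent.Y33.GP.LocRec
import Pool.Agent.Y33.LG.Real

/-! # Graph products of Morse local-to-global groups are Morse local-to-global -/

set_option autoImplicit false

namespace Pool.Agent.Results.MP_ebd0bd_al.GraphProductMLTG

open Pool.Agent.H659R3.MorseLim Pool.Agent.Y33.GP Pool.Agent.Y33.LG

/-- The group `G` is a finitely generated Morse local-to-global group: for some finite generating
set, some metric space quasi-isometric to the Cayley graph (for instance the Cayley graph itself,
or its vertex set with the word metric) has the Morse local-to-global property. -/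
def IsMLTGGroup (G : Type) [Group G] : Prop :=
  ∃ (A : FinGen G) (X : Type) (_ : MetricSpace X), QuasiIsometric X (Cay A) ∧
    MorseLocalToGlobal X

theorem QuasiIsometric.refl (X : Type) [MetricSpace X] : QuasiIsometric X X :=
  ⟨id, 1, le_rfl, fun x x' => by simp, fun y => ⟨y, by simp⟩⟩

theorem locRec_of_group {G : Type} [Group G] (h : IsMLTGGroup G) (A : FinGen G) : LocRec A := by
  obtain ⟨A', X, _, h1, h2⟩ := h
  exact locRec_of_mltg (((h2.of_qi h1)).of_qi (cay_qi A' A))

/-- Let `Γ` be a finite graph and let the vertex groups be finitely generated. If every infinite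
vertex group all of whose neighbours are finite is Morse local-to-global (in particular if all
vertex groups are Morse local-to-global), then the graph product is Morse local-to-global: it is
finitely generated, and for every finite generating set every metric space quasi-isometric to the
Cayley graph (for instance the Cayley graph) has the Morse local-to-global property. -/
theorem result {V : Type} [Finite V] (Γ : SimpleGraph V) (H : V → Type) [∀ v, Group (H v)]
    (hfg : ∀ v, Nonempty (FinGen (H v)))
    (hH : ∀ v, Infinite (H v) → (∀ w, Γ.Adj v w → Finite (H w)) → IsMLTGGroup (H v)) :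
    IsMLTGGroup (GProd Γ H) ∧ ∀ (A : FinGen (GProd Γ H)) (X : Type) [MetricSpace X],
      QuasiIsometric X (Cay A) → MorseLocalToGlobal X := by
  have B : ∀ v, FinGen (H v) := fun v => (hfg v).some
  have h1 : LocRec (sysOf Γ H B).A := Sys.locRec_sys fun v hv =>
    locRec_of_group (hH v (Sys.not_good hv).1 (Sys.not_good hv).2) _
  have h2 := mltg_of_locRec h1
  refine ⟨⟨(sysOf Γ H B).A, Cay (sysOf Γ H B).A, inferInstance, QuasiIsometric.refl _, h2⟩, ?_⟩
  intro A X _ hX
  exact (h2.of_qi (cay_qi (sysOf Γ H B).A A)).of_qi' hX

end Pool.Agent.Results.MP_ebd0bd_al.GraphProductMLTG
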